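import Pool.Agent.helper306_pp.Tp4

/-!
# Tuples of randomly moved primes

Every prime `p` is moved to the right by a random amount `U p`, uniform on `{0, 1, …, H j - 1}` where
`2 ^ j ≤ p < 2 ^ (j + 1)` and `2 ^ (θ j) ≤ H j ≤ 2 ^ (θ' j)` for all large `j`, with `1 / 3 < θ` and `θ' < 1`;
the amounts are independent. Almost surely, for all finite non-empty sets `S` of shifts, the number of
`n < X` for which all `n + a`, `a ∈ S`, are moved primes is asymptotic to `X / (log X) ^ |S|`.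
-/

set_option autoImplicit false

namespace Pool.Agent.Results.MP_e87c7d_nt.MovedPrimes

open MeasureTheory ProbabilityTheory Filter Topology

/-- the set of the moved primes `p + u p` -/
def Moved (u : ℕ → ℕ) : Set ℕ := {m | ∃ p : ℕ, p.Prime ∧ p + u p = m}

/-- the number of `n < X` for which all `n + a`, `a ∈ S`, belong to `R` -/
noncomputable def count (R : Set ℕ) (S : Finset ℕ) (X : ℕ) : ℕ :=
  {n : ℕ | n < X ∧ ∀ a ∈ S, n + a ∈ R}.ncard

lemma count_eq (R : Set ℕ) (S : Finset ℕ) (X : ℕ) : count R S X = Pool.Agent.helper306_pp.NT R S X := by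
  classical
  unfold count Pool.Agent.helper306_pp.NT
  rw [← Set.ncard_coe_finset]
  congr 1
  ext x
  rw [Finset.mem_coe, Finset.mem_filter, Finset.mem_range]
  rfl

theorem result (θ θ' : ℝ) (hθ : 1 / 3 < θ) (hθ' : θ' < 1) (H : ℕ → ℕ)
    (h1 : ∀ j, 1 ≤ H j ∧ H j ≤ 2 ^ j)
    (h2 : ∀ᶠ j : ℕ in atTop, (2 : ℝ) ^ (θ * j) ≤ H j ∧ (H j : ℝ) ≤ 2 ^ (θ' * j))
    {Ω : Type*} [MeasurableSpace Ω] (P : Measure Ω) [IsProbabilityMeasure P]
    (U : ℕ → Ω → ℕ) (hU : ∀ p, Measurable (U p)) (hind : iIndepFun U P)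
    (hunif : ∀ p : ℕ, p.Prime → ∀ i < H (Nat.log 2 p),
      P {ω | U p ω = i} = (H (Nat.log 2 p) : ENNReal)⁻¹) :
    ∀ᵐ ω ∂P, ∀ S : Finset ℕ, S.Nonempty →
      Tendsto (fun X : ℕ => (count (Moved (fun p => U p ω)) S X : ℝ) * Real.log X ^ S.card / X) atTop
        (𝓝 1) := by
  have h := Pool.Agent.helper306_pp.patterns H (fun j => (h1 j).1) (fun j => (h1 j).2) θ θ' hθ hθ'
    (h2.mono fun j hj => hj.1) (h2.mono fun j hj => hj.2) P U hU hind hunif
  filter_upwards [h] with ω hω S hS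
  refine (hω S hS).congr fun X => ?_
  rw [count_eq]
  rfl

end Pool.Agent.Results.MP_e87c7d_nt.MovedPrimes
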