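import Pool.Agent.helper24_UT.Ch8

set_option autoImplicit false

/-!
# Prime `k`-tuples for almost all shifts in windows of length `N ^ (1 / 3 + ε)`, in all progressions to large moduli

Let `k ≥ 1`, `ε > 0`, `A` and `C` be fixed, let `N` be large, `N ^ (1 / 3 + ε) ≤ H ≤ N`, and let `(c_i, c_i + H]`, `i ≤ k`, be
ARBITRARY windows with `c_i ≤ C N`. For all but at most `H ^ k / (log N) ^ A` of the vectors `(a_1, …, a_k)` of shifts
`a_i` from these windows the number of the `n ≤ y`, `n ≡ r (mod q)`, for which all `n + a_i` are prime is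
`(𝔖(a) / φ_a(q)) ∑_{n ≤ y} ∏ 1 / log (n + a_i)` up to an error whose squares, summed over ALL moduli
`q ≤ Q = N exp (- B (log log N) ^ 2)` and over all residue classes `r` modulo `q` with `(r + a_1) ⋯ (r + a_k)` coprime to `q`, have
the sum at most `N ^ 2 / (log N) ^ A`; here `φ_a(q)` is the number of these classes, and the length `y = y(q, r) ≤ N` may be
chosen in every class as unfavourably as possible. In particular (`q = 1`) the number of the `n ≤ y` with all `n + a_i` prime is
`𝔖(a) ∑_{n ≤ y} ∏ 1 / log (n + a_i) + O(N / (log N) ^ (A / 2))` for all `y ≤ N`.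

Proof. The differences `D` of the primes and their sieve model satisfy
`∑_{x ≤ X} |∑_{x < m ≤ x + K} D(m) e(m α)| ^ 2 ≤ X K ^ 2 / (log X) ^ A` uniformly in `α`, for `K ≥ X ^ (1 / 3 + ε)`
(`Pool.Agent.helper24_UT.Ch.t_MK`; identity of Heath-Brown, Type II sums and divisor sums on the minor arcs, mean values of
Dirichlet polynomials, van der Corput's estimate and a bound of the type of Vinogradov and Korobov on the major arcs; the
method of Mikawa). The square over all classes is expanded, `n ≡ n' (mod q)`, the sum over all shift vectors is a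
product of `k` sums over `n + a_i`, `n' + a_i`, and the correlations of `D` over the pairs `n, n'` are
bounded by the exponential sums.
-/

namespace Pool.Agent.Results.MP_e87c7d_nt.ShortWindowsOfShifts

open Finset

variable {k : ℕ}

/-- the number `ν_p` of the distinct residue classes modulo `p` occupied by the `a_i` -/
def nu (a : Fin k → ℕ) (p : ℕ) : ℕ := (univ.image fun i => a i % p).card

/-- the factor of the singular series at the prime `p` -/
noncomputable def factor (a : Fin k → ℕ) (p : Nat.Primes) : ℝ :=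
  (1 - (nu a p : ℝ) / ((p : ℕ) : ℝ)) / (1 - 1 / ((p : ℕ) : ℝ)) ^ k

/-- the singular series `𝔖(a_1, …, a_k)` -/
noncomputable def series (a : Fin k → ℕ) : ℝ := ∏' p : Nat.Primes, factor a p

/-- the number of the `1 ≤ n ≤ y` with `n ≡ r (mod q)` for which all `n + a_i` are prime (for `r < q`) -/
def count (a : Fin k → ℕ) (q r y : ℕ) : ℕ :=
  ((Icc 1 y).filter (fun n => n % q = r ∧ ∀ i, (n + a i).Prime)).card

/-- `∑_{n ≤ y} ∏_i 1 / log (n + a_i)` -/
noncomputable def logSum (a : Fin k → ℕ) (y : ℕ) : ℝ := ∑ n ∈ Icc 1 y, ∏ i, 1 / Real.log ((n + a i : ℕ) : ℝ)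

/-- the residues `r` modulo `q` for which all `r + a_i` are coprime to `q` -/
def residues (a : Fin k → ℕ) (q : ℕ) : Finset ℕ := (range q).filter (fun r => ∀ i, (r + a i).Coprime q)

/-- The `a_i` are distinct, the singular series converges, it is at least `c` if there is no local obstruction, and for all
`Q ≤ N exp (- B (log log N) ^ 2)` and all choices of the lengths `y q r ≤ N` the sum, over all `q ≤ Q` and all residues `r` of
`residues a q`, of the squares of `count - (𝔖 / φ_a(q)) logSum` is at most `N ^ 2 / (log N) ^ A`. -/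
def Holds (c : ℝ) (A B N : ℕ) (a : Fin k → ℕ) : Prop :=
  Function.Injective a ∧ Multipliable (factor a) ∧ ((∀ p : ℕ, p.Prime → nu a p < p) → c ≤ series a) ∧
    ∀ Q : ℕ, (Q : ℝ) ≤ N * Real.exp (-(B * Real.log (Real.log N) ^ 2)) → ∀ y : ℕ → ℕ → ℕ, (∀ q r, y q r ≤ N) →
      ∑ q ∈ Icc 1 Q, ∑ r ∈ residues a q,
        ((count a q r (y q r) : ℝ) - series a / (residues a q).card * logSum a (y q r)) ^ 2 ≤ (N : ℝ) ^ 2 / (Real.log N) ^ A

theorem nu_eq (a : Fin k → ℕ) (p : ℕ) (hp : 1 ≤ p) :
    Pool.Agent.helper24_UT.nuf (fun _ => 1) (fun i => (a i : ℤ)) p = nu a p := by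
  classical
  unfold Pool.Agent.helper24_UT.nuf nu
  have hp0 : (0 : ℤ) < (p : ℤ) := by exact_mod_cast hp
  have hset : ((range p).filter (fun t : ℕ => ∃ i, (p : ℤ) ∣ (1 : ℤ) * t + a i)) =
      (univ.image fun i => a i % p).image (fun x => (p - x) % p) := by
    ext t
    rw [mem_filter, mem_range, mem_image]
    constructor
    · rintro ⟨ht, i, hi⟩
      refine ⟨a i % p, mem_image_of_mem _ (mem_univ i), ?_⟩
      have h1 : p ∣ t + a i := by
        have h2 : (p : ℤ) ∣ ((t + a i : ℕ) : ℤ) := by push_cast; rw [one_mul] at hi; exact hi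
        exact_mod_cast h2
      have h3 : p ∣ t + a i % p := by
        have h4 : t + a i = (t + a i % p) + p * (a i / p) := by
          have := Nat.mod_add_div (a i) p
          omega
        rw [h4] at h1
        exact (Nat.dvd_add_left (Dvd.intro _ rfl)).1 h1
      have h5 : a i % p < p := Nat.mod_lt _ hp
      obtain ⟨c, hc⟩ := h3
      have hc2 : c < 2 := by
        by_contra hcon
        have : p * 2 ≤ p * c := Nat.mul_le_mul_left _ (by omega)
        omega
      interval_cases c
      · have : a i % p = 0 := by omega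
        rw [this, Nat.sub_zero, Nat.mod_self]
        omega
      · have : p - a i % p = t := by omega
        rw [this, Nat.mod_eq_of_lt ht]
    · rintro ⟨x, hx, rfl⟩
      rw [mem_image] at hx
      obtain ⟨i, _, rfl⟩ := hx
      have h5 : a i % p < p := Nat.mod_lt _ hp
      refine ⟨Nat.mod_lt _ hp, i, ?_⟩
      rw [one_mul]
      have h1 : (((p - a i % p) % p : ℕ) : ℤ) + a i = ((((p - a i % p) % p + a i : ℕ)) : ℤ) := by push_cast; ring
      rw [h1]
      have h2 : p ∣ (p - a i % p) % p + a i := by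
        have h3 : ((p - a i % p) % p + a i) % p = 0 := by
          rw [Nat.mod_add_mod]
          have h4 : p - a i % p + a i = p + p * (a i / p) := by
            have := Nat.mod_add_div (a i) p
            omega
          rw [h4, Nat.add_mul_mod_self_left, Nat.mod_self]
        exact Nat.dvd_of_mod_eq_zero h3
      exact_mod_cast h2
  have hcard : ((univ.image fun i => a i % p).image (fun x => (p - x) % p)).card = (univ.image fun i => a i % p).card := by
    apply card_image_of_injOn
    intro x hx y hy hxy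
    rw [mem_coe, mem_image] at hx hy
    obtain ⟨i, _, rfl⟩ := hx
    obtain ⟨j, _, rfl⟩ := hy
    have h5 : a i % p < p := Nat.mod_lt _ hp
    have h6 : a j % p < p := Nat.mod_lt _ hp
    have hxy' : (p - a i % p) % p = (p - a j % p) % p := hxy
    generalize a i % p = u at *
    generalize a j % p = v at *
    rcases Nat.eq_zero_or_pos u with h7 | h7 <;> rcases Nat.eq_zero_or_pos v with h8 | h8
    · rw [h7, h8]
    · rw [h7, Nat.sub_zero, Nat.mod_self, Nat.mod_eq_of_lt (by omega)] at hxy'
      omega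
    · rw [h8, Nat.sub_zero, Nat.mod_self, Nat.mod_eq_of_lt (by omega)] at hxy'
      omega
    · rw [Nat.mod_eq_of_lt (by omega), Nat.mod_eq_of_lt (by omega)] at hxy'
      omega
  rw [← hcard, ← hset]

theorem series_eq (a : Fin k → ℕ) :
    Pool.Agent.helper24_UT.sers (fun _ => 1) (fun i => (a i : ℤ)) = series a := by
  unfold Pool.Agent.helper24_UT.sers series factor
  congr 1
  funext p
  rw [nu_eq a p p.2.one_le]

theorem count_eq (a : Fin k → ℕ) (q r y : ℕ) : Pool.Agent.helper24_UT.cntT a q r y = count a q r y := by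
  classical
  unfold Pool.Agent.helper24_UT.cntT count
  congr 1

theorem phi_eq (a : Fin k → ℕ) (q : ℕ) :
    Pool.Agent.helper24_UT.phf (fun _ => 1) (fun i => (a i : ℤ)) q = (residues a q).card := by
  classical
  unfold Pool.Agent.helper24_UT.phf residues
  congr 1
  apply filter_congr
  intro t _
  apply forall_congr'
  intro i
  rw [one_mul]
  have h : ((t : ℤ) + (a i : ℤ)) = ((t + a i : ℕ) : ℤ) := by push_cast; ring
  rw [h, Int.gcd_natCast_natCast]

open Classical in
/-- **Prime tuples with almost all shifts in short windows, in all progressions to large moduli.** -/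
theorem result (k : ℕ) (hk : 1 ≤ k) : ∃ c : ℝ, 0 < c ∧ ∀ (ε : ℝ) (A C : ℕ), 0 < ε → ∃ B N₀ : ℕ, ∀ N : ℕ, N₀ ≤ N →
    ∀ H : ℕ, (N : ℝ) ^ (1 / 3 + ε) ≤ H → H ≤ N → ∀ c₀ : Fin k → ℕ, (∀ i, c₀ i ≤ C * N) →
      (((Fintype.piFinset (fun i : Fin k => Ioc (c₀ i) (c₀ i + H))).filter (fun a => ¬ Holds c A B N a)).card : ℝ) ≤
        (H : ℝ) ^ k / (Real.log N) ^ A := by
  obtain ⟨c, hc, hS⟩ := Pool.Agent.helper24_UT.Slb.main k
  refine ⟨c, hc, fun ε A C hε => ?_⟩
  obtain ⟨e, he⟩ := exists_nat_gt (1 / ε)
  have he1 : 1 ≤ e := by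
    have h1 : 0 < 1 / ε := by positivity
    have h2 : (0 : ℝ) < e := h1.trans he
    exact_mod_cast h2
  have he0 : (0 : ℝ) < e := by exact_mod_cast he1
  have hle : 1 / (e : ℝ) ≤ ε := by
    rw [div_le_iff₀ he0]
    rw [div_lt_iff₀ hε] at he
    linarith
  obtain ⟨B, N₀, h⟩ := Pool.Agent.helper24_UT.Ch.t_R6C k e A C hk he1
  refine ⟨B, max N₀ 1, fun N hN H hH1 hH2 c₀ hc₀ => ?_⟩
  have hN1 : (1 : ℝ) ≤ N := by exact_mod_cast (le_max_right _ _).trans hN
  have hpow : (N : ℝ) ^ (1 / 3 + 1 / e : ℝ) ≤ H := by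
    refine le_trans ?_ hH1
    apply Real.rpow_le_rpow_of_exponent_le hN1
    linarith
  refine le_trans ?_ (h N ((le_max_left _ _).trans hN) H hpow hH2 c₀ hc₀)
  refine Nat.cast_le.2 (card_le_card fun a ha => ?_)
  have ha := mem_filter.1 ha
  refine mem_filter.2 ⟨ha.1, fun hg => ha.2 ?_⟩
  obtain ⟨hinj, hg⟩ := hg
  have hne : ∀ i j : Fin k, i ≠ j → (1 : ℤ) * (a j : ℤ) ≠ 1 * (a i : ℤ) := by
    intro i j hij heq
    rw [one_mul, one_mul] at heq
    exact hij (hinj (by exact_mod_cast heq.symm))
  obtain ⟨hm, hl⟩ := hS (fun _ => 1) (fun i => (a i : ℤ)) (fun _ => Or.inl rfl) hne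
  refine ⟨hinj, ?_, ?_, ?_⟩
  · convert hm using 2 with p
    unfold factor
    rw [nu_eq a p p.2.one_le]
  · intro hp
    rw [← series_eq]
    apply hl
    intro p hp'
    rw [nu_eq a p hp'.one_le]
    exact hp p hp'
  · intro Q hQ y hy
    have h3 := hg Q hQ y hy
    rw [series_eq] at h3
    simp only [phi_eq, count_eq] at h3
    exact h3

end Pool.Agent.Results.MP_e87c7d_nt.ShortWindowsOfShifts
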