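import Pool.Agent.Helper896.DU.A6

/-!
# Prime tuples at the elements of arbitrary subsets of thin sets of arguments, for almost all shifts

Let `S` be a set of `x` arguments, possibly very thin, and let `s 1, ..., s k` be integer valued functions on
`S` whose values (of size at most `B N i`) have an additive energy of some order `h i` which is minimal up to a
power of the logarithm. Then for almost all vectors `c` of shifts `|c i| ≤ B N i` the numbers `s i n + c i` are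
simultaneously primes for the expected number of the elements `n` of every one of a given family of arbitrary
subsets of `S`, and of all their windows. (`MP_e87c7d_nt.ArbitraryArguments` of the starting files is the dual
situation: the shifts are thin, and the arguments are a dense set.)
-/

set_option autoImplicit false

namespace Pool.Agent.Results.MP_e87c7d_nt.ThinArguments

open Finset

open Classical in
/-- The number of `n ∈ S ∩ M` with `y₁ < n ≤ y₂` such that `|s i n + c i|` is prime for every `i`. -/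
noncomputable def primeCount {k : ℕ} (S : Finset ℕ) (s : Fin k → ℕ → ℤ) (c : Fin k → ℤ) (M : Set ℕ) (y₁ y₂ : ℕ) : ℕ :=
  (S.filter (fun n : ℕ => n ∈ M ∧ y₁ < n ∧ n ≤ y₂ ∧ ∀ i, (s i n + c i).natAbs.Prime)).card

open Classical in
/-- The number of `n ∈ S ∩ M` with `y₁ < n ≤ y₂` such that no `s i n + c i` is divisible by a prime `p ≤ z`. -/
noncomputable def roughCount {k : ℕ} (S : Finset ℕ) (s : Fin k → ℕ → ℤ) (c : Fin k → ℤ) (z : ℕ) (M : Set ℕ)
    (y₁ y₂ : ℕ) : ℕ :=
  (S.filter (fun n : ℕ => n ∈ M ∧ y₁ < n ∧ n ≤ y₂ ∧ ∀ i, ∀ p : ℕ, p.Prime → p ≤ z → ¬ (p : ℤ) ∣ s i n + c i)).card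

/-- `∏_{p ≤ z} (1 - 1 / p)`, the density of the integers without prime factors `≤ z`. -/
noncomputable def V (z : ℕ) : ℝ := ∏ p ∈ (Icc 1 z).filter Nat.Prime, (1 - 1 / (p : ℝ))

/-- For every one of the sets `𝒩 l` and every window `y₁ < n ≤ y₂` which contains at least `#S / log ^ K #S`
elements `n` of `S ∩ 𝒩 l` such that the numbers `s i n + c i` have no prime factor `≤ z`, the proportion of these
elements for which all `|s i n + c i|` are prime is `∏ i, 1 / (V z log (N i))`, up to a relative error of at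
most `ε`. -/
def Holds (ε : ℝ) (K z : ℕ) {k m : ℕ} (S : Finset ℕ) (N : Fin k → ℕ) (𝒩 : Fin m → Set ℕ) (s : Fin k → ℕ → ℤ)
    (c : Fin k → ℤ) : Prop :=
  ∀ l : Fin m, ∀ y₁ y₂ : ℕ, y₁ ≤ y₂ →
    (S.card : ℝ) / Real.log S.card ^ K ≤ roughCount S s c z (𝒩 l) y₁ y₂ →
    |(primeCount S s c (𝒩 l) y₁ y₂ : ℝ) - roughCount S s c z (𝒩 l) y₁ y₂ / ∏ i, (V z * Real.log (N i))| ≤
      ε * (roughCount S s c z (𝒩 l) y₁ y₂ / ∏ i, (V z * Real.log (N i)))

/-- The additive energy of order `h` of the values of `s` at the elements of `S`: the number of solutions of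
`s (n 1) + ... + s (n h) = s (n' 1) + ... + s (n' h)` in elements of `S`. -/
def energy (h : ℕ) (S : Finset ℕ) (s : ℕ → ℤ) : ℕ :=
  (((Fintype.piFinset fun _ : Fin h => S) ×ˢ (Fintype.piFinset fun _ : Fin h => S)).filter
    (fun q => ∑ i, s (q.1 i) = ∑ i, s (q.2 i))).card

/-- The number of representations of `t` as `s (n 1) + ... + s (n h)` with elements `n i` of `S`. -/
def reps (h : ℕ) (S : Finset ℕ) (s : ℕ → ℤ) (t : ℤ) : ℕ :=
  ((Fintype.piFinset fun _ : Fin h => S).filter (fun q => ∑ i, s (q i) = t)).card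

open Classical in
/-- The number of the integer vectors `c` with `|c i| ≤ B N i` for all `i` for which `Holds` fails. -/
noncomputable def exceptions (ε : ℝ) (K B z : ℕ) {k m : ℕ} (S : Finset ℕ) (N : Fin k → ℕ) (𝒩 : Fin m → Set ℕ)
    (s : Fin k → ℕ → ℤ) : ℕ :=
  ((Fintype.piFinset (fun i => Icc (-((B * N i : ℕ) : ℤ)) ((B * N i : ℕ) : ℤ))).filter
    (fun c => ¬ Holds ε K z S N 𝒩 s c)).card

lemma energy_le (h : ℕ) (S : Finset ℕ) (s : ℕ → ℤ) (J : ℝ) (hJ : ∀ t, (reps h S s t : ℝ) ≤ J) :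
    (energy h S s : ℝ) ≤ (S.card : ℝ) ^ h * J := by
  classical
  have h1 : energy h S s = ∑ q ∈ (Fintype.piFinset fun _ : Fin h => S), reps h S s (∑ i, s (q i)) := by
    unfold energy reps
    rw [card_filter, sum_product]
    apply sum_congr rfl
    intro q _
    rw [card_filter]
    apply sum_congr rfl
    intro q' _
    simp only [eq_comm]
  rw [h1]
  push_cast
  calc ∑ q ∈ (Fintype.piFinset fun _ : Fin h => S), (reps h S s (∑ i, s (q i)) : ℝ)
      ≤ ∑ _q ∈ (Fintype.piFinset fun _ : Fin h => S), J := sum_le_sum fun q _ => hJ _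
    _ = (S.card : ℝ) ^ h * J := by
        rw [sum_const, Fintype.card_piFinset, prod_const, card_univ, Fintype.card_fin, nsmul_eq_mul]
        push_cast
        rfl

theorem first (k : ℕ) (h : Fin k → ℕ) (B H C T U K : ℕ) (hB : 1 ≤ B) (ε : ℝ) (hε : 0 < ε) :
    ∃ E₀ : ℕ, ∀ E : ℕ, E₀ ≤ E → ∃ x₀ : ℕ, ∀ S : Finset ℕ, x₀ ≤ S.card →
      ∀ m : ℕ, (m : ℝ) ≤ Real.log S.card ^ T → ∀ 𝒩 : Fin m → Set ℕ,
      ∀ (N : Fin k → ℕ) (s : Fin k → ℕ → ℤ), (∀ i, N i ≤ S.card ^ H ∧ S.card ≤ N i ^ H) →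
      (∀ i, ∀ n ∈ S, |s i n| ≤ B * N i) →
      (∀ i, (energy (h i) S (s i) : ℝ) * N i ≤ Real.log S.card ^ C * (S.card : ℝ) ^ (2 * h i)) →
      (exceptions ε K B ⌊Real.log S.card ^ E⌋₊ S N 𝒩 s : ℝ) ≤
        (∏ i, (2 * (B * N i) + 1 : ℝ)) / Real.log S.card ^ U := by
  obtain ⟨E0, h0⟩ := Pool.Agent.Helper896.DU.fam_S k h B H C T U K hB ε hε
  refine ⟨E0, fun E hE => ?_⟩
  obtain ⟨x0, h1⟩ := h0 E hE
  refine ⟨x0, fun S hS m hm 𝒩 N s hN hs hen => ?_⟩
  exact h1 S hS N s { up := fun i => (hN i).1, low := fun i => (hN i).2, val := hs, en := hen } m hm 𝒩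

/-- Let `k`, `h i`, `B`, `H`, `C`, `T`, `U`, `K` and `ε > 0` be fixed, let `E` be large in terms of these, let
`#S` be large in terms of all of them, and put `z = ⌊log ^ E #S⌋`. Here `S` is an arbitrary finite set of natural
numbers (the arguments). Let `𝒩 l`, `l = 1, ..., m`, be arbitrary sets, `m ≤ log ^ T #S`. Let `N i` be positive
integers with `N i ≤ (#S) ^ H` and `#S ≤ (N i) ^ H`, and let `s i n`, `i = 1, ..., k`, `n ∈ S`, be integers with
`|s i n| ≤ B N i`.

* Suppose that for every `i` the additive energy of order `h i` of the family `s i n`, `n ∈ S`, is at most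
  `log ^ C #S` times `(#S) ^ (2 h i) / N i` (up to the power of the logarithm this is the least possible energy of
  a family with members in `[-B N i, B N i]`; `S` may have as few as `(N i) ^ (1 / h i)` elements). Then for all
  integer vectors `c` with `|c i| ≤ B N i`, with at most `∏ (2 B N i + 1) / log ^ U #S` exceptions, the following
  holds simultaneously for all the sets `𝒩 l` and all windows `(y₁, y₂]`: if `R` is the number of the elements `n`
  of `S ∩ 𝒩 l` in the window for which `s 1 n + c 1, ..., s k n + c k` have no prime factor `≤ z`, and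
  `R ≥ #S / log ^ K #S`, then the number of the elements `n` of `S ∩ 𝒩 l` in the window for which
  `|s 1 n + c 1|, ..., |s k n + c k|` are all prime is `(1 + O(ε)) R / ∏ (V z log (N i))`, where
  `V z = ∏_{p ≤ z} (1 - 1 / p)`.
* In particular this holds if for every `i` no integer has more than `log ^ C #S` representations as a sum of
  `h i` members of the `i`-th family, and `(#S) ^ (h i) ≥ N i / log ^ C #S`. -/
theorem result (k : ℕ) (h : Fin k → ℕ) (B H C T U K : ℕ) (hB : 1 ≤ B) (ε : ℝ) (hε : 0 < ε) :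
    (∃ E₀ : ℕ, ∀ E : ℕ, E₀ ≤ E → ∃ x₀ : ℕ, ∀ S : Finset ℕ, x₀ ≤ S.card →
      ∀ m : ℕ, (m : ℝ) ≤ Real.log S.card ^ T → ∀ 𝒩 : Fin m → Set ℕ,
      ∀ (N : Fin k → ℕ) (s : Fin k → ℕ → ℤ), (∀ i, N i ≤ S.card ^ H ∧ S.card ≤ N i ^ H) →
      (∀ i, ∀ n ∈ S, |s i n| ≤ B * N i) →
      (∀ i, (energy (h i) S (s i) : ℝ) * N i ≤ Real.log S.card ^ C * (S.card : ℝ) ^ (2 * h i)) →
      (exceptions ε K B ⌊Real.log S.card ^ E⌋₊ S N 𝒩 s : ℝ) ≤
        (∏ i, (2 * (B * N i) + 1 : ℝ)) / Real.log S.card ^ U) ∧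
    (∃ E₀ : ℕ, ∀ E : ℕ, E₀ ≤ E → ∃ x₀ : ℕ, ∀ S : Finset ℕ, x₀ ≤ S.card →
      ∀ m : ℕ, (m : ℝ) ≤ Real.log S.card ^ T → ∀ 𝒩 : Fin m → Set ℕ,
      ∀ (N : Fin k → ℕ) (s : Fin k → ℕ → ℤ), (∀ i, N i ≤ S.card ^ H ∧ S.card ≤ N i ^ H) →
      (∀ i, ∀ n ∈ S, |s i n| ≤ B * N i) →
      (∀ i t, (reps (h i) S (s i) t : ℝ) ≤ Real.log S.card ^ C) →
      (∀ i, (N i : ℝ) ≤ Real.log S.card ^ C * (S.card : ℝ) ^ h i) →
      (exceptions ε K B ⌊Real.log S.card ^ E⌋₊ S N 𝒩 s : ℝ) ≤
        (∏ i, (2 * (B * N i) + 1 : ℝ)) / Real.log S.card ^ U) := by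
  refine ⟨first k h B H C T U K hB ε hε, ?_⟩
  obtain ⟨E0, hE0⟩ := first k h B H (2 * C) T U K hB ε hε
  refine ⟨E0, fun E hE => ?_⟩
  obtain ⟨x₀, h0⟩ := hE0 E hE
  refine ⟨x₀ + 1, fun S hS m hm 𝒩 N s hN hs hJ hx => ?_⟩
  apply h0 S (by omega) m hm 𝒩 N s hN hs
  have hL0 : 0 ≤ Real.log S.card := Real.log_natCast_nonneg _
  intro i
  have h2 := energy_le (h i) S (s i) _ (hJ i)
  calc (energy (h i) S (s i) : ℝ) * N i ≤
      ((S.card : ℝ) ^ h i * Real.log S.card ^ C) * (Real.log S.card ^ C * (S.card : ℝ) ^ h i) :=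
        mul_le_mul h2 (hx i) (Nat.cast_nonneg _) (by positivity)
    _ = Real.log S.card ^ (2 * C) * (S.card : ℝ) ^ (2 * h i) := by ring

end Pool.Agent.Results.MP_e87c7d_nt.ThinArguments
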