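import Pool.Agent.H662.RC.TupZ

set_option autoImplicit false

/-!
# Prime `r`-tuples in almost all residue classes, for all large moduli and all shifts

For an individual residue class modulo `q` the sieve gives at most `2 ^ r r! + δ` times
`𝔖 X / (R(q) (log (X / q)) ^ r)` integers `n ≤ X` in the class with all `|n + a_i|` prime, where `R(q)` is
the number of the classes at which all `n + a_i` are prime to `q`. Here `2 / log (X / q)` is replaced by
`4 / log (X ^ 2 / q)` for all but few of the classes, for every modulus `q ≤ X ^ θ`, `θ < 1`, uniformly in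
the shifts. For `r = 2` and `(a_1, a_2) = (0, -X)` this is a bound for the representations of `X` as a sum
of two primes one of which lies in the class.
-/

namespace Pool.Agent.Results.MP_e87c7d_nt.TuplesInResidueClasses

open Finset Filter Topology

/-- the number `ν_p` of the distinct residue classes modulo `p` occupied by the `a_i` -/
def nu {r : ℕ} (a : Fin r → ℤ) (p : ℕ) : ℕ := (univ.image fun i => a i % (p : ℤ)).card

/-- The product of `(1 - 1 / p) ^ (-r) (1 - ν_p / p)` over the primes `p ≤ X`. -/
noncomputable def series {r : ℕ} (a : Fin r → ℤ) (X : ℕ) : ℝ :=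
  ∏ p ∈ (range (X + 1)).filter Nat.Prime, (1 - (nu a p : ℝ) / p) / (1 - 1 / (p : ℝ)) ^ r

/-- The number of the integers `1 ≤ n ≤ X` with `n ≡ t mod q` such that all `|n + a_i|` are primes. -/
def tuples {r : ℕ} (a : Fin r → ℤ) (X q t : ℕ) : ℕ :=
  ((Icc 1 X).filter (fun n : ℕ => n ≡ t [MOD q] ∧ ∀ i, ((n : ℤ) + a i).natAbs.Prime)).card

open Classical in
/-- The number of the residue classes `t mod q` such that all `t + a_i` are prime to `q`. -/
noncomputable def admissible {r : ℕ} (a : Fin r → ℤ) (q : ℕ) : ℕ :=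
  ((range q).filter (fun t : ℕ => ∀ i, IsCoprime ((t : ℤ) + a i) (q : ℤ))).card

open Classical in
/-- **Prime tuples in almost all residue classes.** For all `r`, `θ < 1` and `δ > 0` there is `κ > 0` such
that for all large `X`, for all integers `a_1, …, a_r` with `ν_p < p` for every prime `p` and for every
modulus `1 ≤ q ≤ X ^ θ`, for all but at most `R(q) X ^ (-κ)` of the residue classes modulo `q` the number of
the `n ≤ X` in the class with all `|n + a_i|` prime is at most
`(4 ^ r r! + δ) 𝔖_X(a) X / (R(q) (log (X ^ 2 / q)) ^ r)`. -/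
theorem result (r : ℕ) (θ δ : ℝ) (hθ : θ < 1) (hδ : 0 < δ) : ∃ κ : ℝ, 0 < κ ∧
    ∀ᶠ X : ℕ in atTop, ∀ a : Fin r → ℤ, (∀ p : ℕ, p.Prime → nu a p < p) →
      ∀ q : ℕ, 1 ≤ q → (q : ℝ) ≤ (X : ℝ) ^ θ →
          (((range q).filter (fun t : ℕ =>
            ((r.factorial : ℝ) * 4 ^ r + δ) * series a X *
              ((X : ℝ) / ((admissible a q : ℝ) * Real.log ((X : ℝ) ^ 2 / q) ^ r)) <
              (tuples a X q t : ℝ))).card : ℝ) ≤
            (admissible a q : ℝ) * (X : ℝ) ^ (-κ) := by
  obtain ⟨κ, hκ, H⟩ := Pool.Agent.H662.RC.tupP_main r θ δ hθ hδ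
  refine ⟨κ, hκ, ?_⟩
  filter_upwards [H] with X hX a hadm q hq hqX
  have hadq : admissible a q = Pool.Agent.H662.RC.clsG (Pool.Agent.H662.RC.GT a) q := by
    unfold admissible Pool.Agent.H662.RC.clsG
    congr 1
    apply filter_congr
    intro t _
    rw [Pool.Agent.H662.RC.GT_eval, Nat.coprime_iff_gcd_eq_one]
    constructor
    · intro h
      have h3 : IsCoprime (∏ i, ((t : ℤ) + a i)) (q : ℤ) := IsCoprime.prod_left fun i _ => h i
      rw [Int.isCoprime_iff_gcd_eq_one] at h3
      exact h3
    · intro h i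
      have h3 : IsCoprime (∏ i, ((t : ℤ) + a i)) (q : ℤ) := by
        rw [Int.isCoprime_iff_gcd_eq_one]
        exact h
      exact IsCoprime.of_isCoprime_of_dvd_left h3
        (dvd_prod_of_mem (fun i => (t : ℤ) + a i) (mem_univ i))
  have hser : Pool.Agent.H662.RC.PPX (Pool.Agent.H662.RC.GT a) r X = series a X := by
    unfold Pool.Agent.H662.RC.PPX Pool.Agent.H662.RC.Sm series Pool.Agent.H662.RC.gG
    apply prod_congr rfl
    intro p hp
    rw [Pool.Agent.H662.RC.ro_GT a p (mem_filter.1 hp).2]
    rfl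
  have h := hX a hadm q hq hqX
  rw [hser, ← hadq] at h
  exact h

end Pool.Agent.Results.MP_e87c7d_nt.TuplesInResidueClasses
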